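import Pool.Agent.Helper91.MC.PA

/-!
MP_4042d8_co, rows X_SQ1, X_SQ2: squares.
-/

namespace Pool.Agent.Helper78.MC

open Pool.Agent.Helper27.MC Pool.Agent.Helper51.MC Pool.Agent.Helper88.MC Pool.Agent.Helper64.MC
  Pool.Agent.Helper91.MC

set_option autoImplicit false
set_option linter.unusedSectionVars false

section

variable {V : Type} [Fintype V] [DecidableEq V] {G : SimpleGraph V} [DecidableRel G.Adj]
  {c : V → Bool}

/-- mono neighbours from the list of neighbours -/
theorem rm3 {c' : V → Bool} {p x y z : V} (nb : ∀ w, G.Adj p w ↔ w = x ∨ w = y ∨ w = z) (w : V) :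
    Rm G c' p w ↔ (w = x ∧ c' x = c' p) ∨ (w = y ∧ c' y = c' p) ∨ (w = z ∧ c' z = c' p) := by
  unfold Rm
  rw [nb]
  constructor
  · rintro ⟨h1 | h1 | h1, h2⟩
    · rw [h1] at h2
      exact Or.inl ⟨h1, h2⟩
    · rw [h1] at h2
      exact Or.inr (Or.inl ⟨h1, h2⟩)
    · rw [h1] at h2
      exact Or.inr (Or.inr ⟨h1, h2⟩)
  · rintro (⟨rfl, h⟩ | ⟨rfl, h⟩ | ⟨rfl, h⟩)
    · exact ⟨Or.inl rfl, h⟩
    · exact ⟨Or.inr (Or.inl rfl), h⟩
    · exact ⟨Or.inr (Or.inr rfl), h⟩

/-- a vertex without mate outside `X` -/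
theorem rm0 {X : Finset V} {v : V} (h0 : mu G c v = 0) (hv : v ∉ X) (w : V) :
    Rm G (flp c X) v w ↔ w ∈ X ∧ G.Adj v w ∧ c w ≠ c v := by
  rw [rm_out hv]
  have := nomate h0 w
  constructor
  · rintro (h | h)
    · exact absurd h.2 this
    · exact h
  · exact Or.inr

/-- no new mono neighbour -/
theorem mu_old (hm : ∀ v, mu G c v ≤ 1) {X : Finset V} {v : V} (hv : v ∉ X)
    (h : ∀ z ∈ X, G.Adj v z → c z ≠ c v → False) : mu G (flp c X) v ≤ 1 := by
  refine (mu_mono fun y hy => ?_).trans (hm v)
  rcases (rm_out hv y).1 hy with h1 | h1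
  · exact h1.2
  · exact (h y h1.1 h1.2.1 h1.2.2).elim

theorem ne_col {c : V → Bool} {x y : V} (hx : c x = false) (hy : c y = true) : x ≠ y := by
  rintro rfl
  rw [hx] at hy
  cases hy

end

/-- row X_SQ2 -/
theorem st_SQ2 : ST_SQ2 := by
  intro V _ _ G _ hG c hm u t a b w w' v r x y Su St nut Aa Ab Bw hw'r Sr Ax Ay
  have cu := Su.cs
  have cv := Su.cm
  have ca := Su.ca
  have cb := Su.cb
  have ct := St.cs
  have cr := St.cm
  have cw := Aa.cz
  have cw' := Ab.cz
  have cx := Ax.1
  have cy := Ay.1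
  have rtr := sv_rm St
  have ruv := sv_rm Su
  have nbu := Su.n3.nb
  have nbt := St.n3.nb
  have nba := Aa.n3.nb
  have nbb := Ab.n3.nb
  have nbr := Sr.n3.nb
  have hut : u ≠ t := Aa.n3.xy
  have huw : u ≠ w := Aa.n3.xz
  have htw : t ≠ w := Aa.n3.yz
  have huw' : u ≠ w' := Ab.n3.xz
  have htw' : t ≠ w' := Ab.n3.yz
  have hab : a ≠ b := Su.n3.yz
  have hxy : x ≠ y := Sr.n3.yz
  have hur : u ≠ r := by
    rintro rfl
    exact nut rtr.symm
  have htr : t ≠ r := rtr.ne
  have hvu : v ≠ u := ruv.ne.symm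
  have hvt : v ≠ t := by
    rintro rfl
    exact nut ruv
  have hvr : v ≠ r := by
    rintro rfl
    exact hut (rm_uniq (hm v) ruv.symm rtr.symm)
  have hwr : w ≠ r := by
    rintro rfl
    exact nomate Bw.2 t rtr.symm
  have nra : ¬ G.Adj r a := by
    intro h
    rcases (nba r).1 h.symm with h | h | h
    · exact hur h.symm
    · exact htr h.symm
    · exact hwr h.symm
  have nrb : ¬ G.Adj r b := by
    intro h
    rcases (nbb r).1 h.symm with h | h | h
    · exact hur h.symm
    · exact htr h.symm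
    · exact hw'r h.symm
  have arx : G.Adj r x := (nbr x).2 (Or.inr (Or.inl rfl))
  have ary : G.Adj r y := (nbr y).2 (Or.inr (Or.inr rfl))
  have hxa : x ≠ a := by
    rintro rfl
    exact nra arx
  have hxb : x ≠ b := by
    rintro rfl
    exact nrb arx
  have hya : y ≠ a := by
    rintro rfl
    exact nra ary
  have hyb : y ≠ b := by
    rintro rfl
    exact nrb ary
  have mX : ∀ z, z ∈ ({u, a, r} : Finset V) ↔ z = u ∨ z = a ∨ z = r := by
    intro z
    simp
  have nX : ∀ z, z ≠ u → z ≠ a → z ≠ r → z ∉ ({u, a, r} : Finset V) := by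
    intro z h1 h2 h3 h
    rcases (mX z).1 h with h | h | h
    · exact h1 h
    · exact h2 h
    · exact h3 h
  have iu : u ∈ ({u, a, r} : Finset V) := by simp
  have ia : a ∈ ({u, a, r} : Finset V) := by simp
  have ir : r ∈ ({u, a, r} : Finset V) := by simp
  have ob := nX b (ne_col cu cb).symm hab.symm (ne_col cr cb).symm
  have ot := nX t hut.symm (ne_col ct ca) htr
  have ow := nX w huw.symm (ne_col cw ca) hwr
  have ow' := nX w' huw'.symm (ne_col cw' ca) hw'r
  have ov := nX v hvu (ne_col cv ca) hvr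
  have ox := nX x (ne_col cu cx).symm hxa (ne_col cr cx).symm
  have oy := nX y (ne_col cu cy).symm hya (ne_col cr cy).symm
  have fu : flp c {u, a, r} u = true := by rw [flp_in iu, cu]; rfl
  have fa : flp c {u, a, r} a = false := by rw [flp_in ia, ca]; rfl
  have fr : flp c {u, a, r} r = true := by rw [flp_in ir, cr]; rfl
  have fb : flp c {u, a, r} b = true := by rw [flp_not ob, cb]
  have ft : flp c {u, a, r} t = false := by rw [flp_not ot, ct]
  have fw : flp c {u, a, r} w = false := by rw [flp_not ow, cw]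
  have fw' : flp c {u, a, r} w' = false := by rw [flp_not ow', cw']
  have fv : flp c {u, a, r} v = false := by rw [flp_not ov, cv]
  have fx : flp c {u, a, r} x = true := by rw [flp_not ox, cx]
  have fy : flp c {u, a, r} y = true := by rw [flp_not oy, cy]
  have Ru : ∀ z, Rm G (flp c {u, a, r}) u z ↔ z = b := by
    intro z
    rw [rm3 nbu, fu, fa, fb, fv]
    simp
  have Ra : ∀ z, Rm G (flp c {u, a, r}) a z ↔ z = t ∨ z = w := by
    intro z
    rw [rm3 nba, fu, fa, ft, fw]
    simp
  have Rb : ∀ z, Rm G (flp c {u, a, r}) b z ↔ z = u := by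
    intro z
    rw [rm3 nbb, fu, fb, ft, fw']
    simp
  have Rt : ∀ z, Rm G (flp c {u, a, r}) t z ↔ z = a := by
    intro z
    rw [rm3 nbt, fr, fa, fb, ft]
    simp
  have Rr : ∀ z, Rm G (flp c {u, a, r}) r z ↔ z = x ∨ z = y := by
    intro z
    rw [rm3 nbr, fr, fx, fy, ft]
    simp
  have Rw : ∀ z, Rm G (flp c {u, a, r}) w z ↔ z = a := by
    intro z
    rw [rm0 Bw.2 ow, mX]
    constructor
    · rintro ⟨h1 | h1 | h1, h2, h3⟩
      · rw [h1, cu, cw] at h3
        exact absurd rfl h3
      · exact h1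
      · rw [h1, cr, cw] at h3
        exact absurd rfl h3
    · rintro rfl
      exact ⟨Or.inr (Or.inl rfl), ((nba w).2 (Or.inr (Or.inr rfl))).symm, by rw [ca, cw]; decide⟩
  have Rx : ∀ z, Rm G (flp c {u, a, r}) x z ↔ z = r := by
    intro z
    rw [rm0 Ax.2 ox, mX]
    constructor
    · rintro ⟨h1 | h1 | h1, h2, h3⟩
      · rw [h1] at h2
        rcases (nbu x).1 h2.symm with h | h | h
        · exact absurd h.symm (ne_col cv cx)
        · exact absurd h hxa
        · exact absurd h hxb
      · rw [h1, ca, cx] at h3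
        exact absurd rfl h3
      · exact h1
    · rintro rfl
      exact ⟨Or.inr (Or.inr rfl), arx.symm, by rw [cr, cx]; decide⟩
  have Ry : ∀ z, Rm G (flp c {u, a, r}) y z ↔ z = r := by
    intro z
    rw [rm0 Ay.2 oy, mX]
    constructor
    · rintro ⟨h1 | h1 | h1, h2, h3⟩
      · rw [h1] at h2
        rcases (nbu y).1 h2.symm with h | h | h
        · exact absurd h.symm (ne_col cv cy)
        · exact absurd h hya
        · exact absurd h hyb
      · rw [h1, ca, cy] at h3
        exact absurd rfl h3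
      · exact h1
    · rintro rfl
      exact ⟨Or.inr (Or.inr rfl), ary.symm, by rw [cr, cy]; decide⟩
  refine ⟨cn G {u, a, r}, Blk.of2 (f := ![x, r, y]) (g := ![t, a, w]) (H := pth 3) (fun _ h => h) ?_
    (comp3 hxy fx Rx Rr Ry) (comp3 htw ft Rt Ra Rw) ?_ ?_ ?_⟩
  · unfold dd
    rw [Finset.sum_insert (by simp [ne_col cu ca, hur]), Finset.sum_pair (ne_col cr ca).symm,
      cu, ca, cr]
    norm_num
  · intro i
    fin_cases i
    · exact mem_cn.2 (Or.inr ⟨r, ir, arx.symm⟩)
    · exact mem_cn.2 (Or.inl ir)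
    · exact mem_cn.2 (Or.inr ⟨r, ir, ary.symm⟩)
  · intro i
    fin_cases i
    · exact mem_cn.2 (Or.inr ⟨a, ia, ((nba t).2 (Or.inr (Or.inl rfl))).symm⟩)
    · exact mem_cn.2 (Or.inl ia)
    · exact mem_cn.2 (Or.inr ⟨a, ia, ((nba w).2 (Or.inr (Or.inr rfl))).symm⟩)
  · intro z h1 h2
    have hx : z ≠ x := h1 0
    have hr : z ≠ r := h1 1
    have hy : z ≠ y := h1 2
    have ht : z ≠ t := h2 0
    have ha : z ≠ a := h2 1
    have hw : z ≠ w := h2 2
    by_cases hu : z = u
    · rw [hu]
      exact mu_le_one fun y' h => (Ru y').1 h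
    · by_cases hb : z = b
      · rw [hb]
        exact mu_le_one fun y' h => (Rb y').1 h
      · refine mu_old hm (nX z hu ha hr) ?_
        intro q hq hz hc
        rcases (mX q).1 hq with h | h | h
        · rw [h] at hz hc
          rcases (nbu z).1 hz.symm with h | h | h
          · rw [h, cu, cv] at hc
            exact hc rfl
          · exact ha h
          · exact hb h
        · rw [h] at hz
          rcases (nba z).1 hz.symm with h | h | h
          · exact hu h
          · exact ht h
          · exact hw h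
        · rw [h] at hz
          rcases (nbr z).1 hz.symm with h | h | h
          · exact ht h
          · exact hx h
          · exact hy h

/-- row X_SQ1 -/
theorem st_SQ1 : ST_SQ1 := by
  intro V _ _ G _ hG c hm u t a b w v r s Su St nut Aa Ab Bw hs hsu hst hsv hsr
  obtain ⟨m, p, q, nbs, cs, cm, cp, cq, hpq, mp, mq⟩ := fr_data hG hm hs
  have cu := Su.cs
  have cv := Su.cm
  have ca := Su.ca
  have cb := Su.cb
  have ct := St.cs
  have cr := St.cm
  have cw := Aa.cz
  have rtr := sv_rm St
  have ruv := sv_rm Su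
  have nbu := Su.n3.nb
  have nbt := St.n3.nb
  have nba := Aa.n3.nb
  have nbb := Ab.n3.nb
  have hut : u ≠ t := Aa.n3.xy
  have huw : u ≠ w := Aa.n3.xz
  have htw : t ≠ w := Aa.n3.yz
  have hab : a ≠ b := Su.n3.yz
  have hsm : Rm G c s m := ⟨(nbs m).2 (Or.inl rfl), by rw [cs, cm]⟩
  have hsw : s ≠ w := by
    rintro rfl
    exact nomate Bw.2 m hsm
  have nsa : ¬ G.Adj s a := by
    intro h
    rcases (nba s).1 h.symm with h | h | h
    · exact hsu h
    · exact hst h
    · exact hsw h
  have nsb : ¬ G.Adj s b := by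
    intro h
    rcases (nbb s).1 h.symm with h | h | h
    · exact hsu h
    · exact hst h
    · exact hsw h
  have asp : G.Adj s p := (nbs p).2 (Or.inr (Or.inl rfl))
  have asq : G.Adj s q := (nbs q).2 (Or.inr (Or.inr rfl))
  have hpa : p ≠ a := by
    rintro rfl
    exact nsa asp
  have hpb : p ≠ b := by
    rintro rfl
    exact nsb asp
  have hqa : q ≠ a := by
    rintro rfl
    exact nsa asq
  have hqb : q ≠ b := by
    rintro rfl
    exact nsb asq
  have hmu : m ≠ u := by
    rintro rfl
    exact hsv (rm_uniq (hm m) hsm.symm ruv)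
  have hmt : m ≠ t := by
    rintro rfl
    exact hsr (rm_uniq (hm m) hsm.symm rtr)
  have hms : m ≠ s := hsm.ne.symm
  have hvu : v ≠ u := ruv.ne.symm
  have hvt : v ≠ t := by
    rintro rfl
    exact nut ruv
  have hru : r ≠ u := by
    rintro rfl
    exact nut rtr.symm
  have hrt : r ≠ t := rtr.ne.symm
  have mX : ∀ z, z ∈ ({u, t, a, b, s} : Finset V) ↔ z = u ∨ z = t ∨ z = a ∨ z = b ∨ z = s := by
    intro z
    simp
  have nX : ∀ z, z ≠ u → z ≠ t → z ≠ a → z ≠ b → z ≠ s → z ∉ ({u, t, a, b, s} : Finset V) := by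
    intro z h1 h2 h3 h4 h5 h
    rcases (mX z).1 h with h | h | h | h | h
    · exact h1 h
    · exact h2 h
    · exact h3 h
    · exact h4 h
    · exact h5 h
  have iu : u ∈ ({u, t, a, b, s} : Finset V) := by simp
  have it : t ∈ ({u, t, a, b, s} : Finset V) := by simp
  have ia : a ∈ ({u, t, a, b, s} : Finset V) := by simp
  have ib : b ∈ ({u, t, a, b, s} : Finset V) := by simp
  have is : s ∈ ({u, t, a, b, s} : Finset V) := by simp
  have ow := nX w huw.symm htw.symm (ne_col cw ca) (ne_col cw cb) hsw.symm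
  have om := nX m hmu hmt (ne_col cm ca) (ne_col cm cb) hms
  have ov := nX v hvu hvt (ne_col cv ca) (ne_col cv cb) hsv.symm
  have or' := nX r hru hrt (ne_col cr ca) (ne_col cr cb) hsr.symm
  have op := nX p (ne_col cu cp).symm (ne_col ct cp).symm hpa hpb (ne_col cs cp).symm
  have oq := nX q (ne_col cu cq).symm (ne_col ct cq).symm hqa hqb (ne_col cs cq).symm
  have fu : flp c {u, t, a, b, s} u = true := by rw [flp_in iu, cu]; rfl
  have ft : flp c {u, t, a, b, s} t = true := by rw [flp_in it, ct]; rfl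
  have fa : flp c {u, t, a, b, s} a = false := by rw [flp_in ia, ca]; rfl
  have fb : flp c {u, t, a, b, s} b = false := by rw [flp_in ib, cb]; rfl
  have fs : flp c {u, t, a, b, s} s = true := by rw [flp_in is, cs]; rfl
  have fw : flp c {u, t, a, b, s} w = false := by rw [flp_not ow, cw]
  have fm : flp c {u, t, a, b, s} m = false := by rw [flp_not om, cm]
  have fv : flp c {u, t, a, b, s} v = false := by rw [flp_not ov, cv]
  have fr : flp c {u, t, a, b, s} r = false := by rw [flp_not or', cr]
  have fp : flp c {u, t, a, b, s} p = true := by rw [flp_not op, cp]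
  have fq : flp c {u, t, a, b, s} q = true := by rw [flp_not oq, cq]
  have Ru : ∀ z, ¬ Rm G (flp c {u, t, a, b, s}) u z := by
    intro z
    rw [rm3 nbu, fu, fa, fb, fv]
    simp
  have Rt : ∀ z, ¬ Rm G (flp c {u, t, a, b, s}) t z := by
    intro z
    rw [rm3 nbt, ft, fa, fb, fr]
    simp
  have Ra : ∀ z, Rm G (flp c {u, t, a, b, s}) a z ↔ z = w := by
    intro z
    rw [rm3 nba, fu, fa, ft, fw]
    simp
  have Rb : ∀ z, Rm G (flp c {u, t, a, b, s}) b z ↔ z = w := by
    intro z
    rw [rm3 nbb, fu, fb, ft, fw]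
    simp
  have Rs : ∀ z, Rm G (flp c {u, t, a, b, s}) s z ↔ z = p ∨ z = q := by
    intro z
    rw [rm3 nbs, fs, fm, fp, fq]
    simp
  have Rw : ∀ z, Rm G (flp c {u, t, a, b, s}) w z ↔ z = a ∨ z = b := by
    intro z
    rw [rm0 Bw.2 ow, mX]
    constructor
    · rintro ⟨h1 | h1 | h1 | h1 | h1, h2, h3⟩
      · rw [h1, cu, cw] at h3
        exact absurd rfl h3
      · rw [h1, ct, cw] at h3
        exact absurd rfl h3
      · exact Or.inl h1
      · exact Or.inr h1
      · rw [h1, cs, cw] at h3
        exact absurd rfl h3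
    · rintro (rfl | rfl)
      · exact ⟨Or.inr (Or.inr (Or.inl rfl)), ((nba w).2 (Or.inr (Or.inr rfl))).symm,
          by rw [ca, cw]; decide⟩
      · exact ⟨Or.inr (Or.inr (Or.inr (Or.inl rfl))), ((nbb w).2 (Or.inr (Or.inr rfl))).symm,
          by rw [cb, cw]; decide⟩
  have Rpq : ∀ e, mu G c e = 0 → c e = true → e ∉ ({u, t, a, b, s} : Finset V) → e ≠ a → e ≠ b →
      G.Adj s e → ∀ z, Rm G (flp c {u, t, a, b, s}) e z ↔ z = s := by
    intro e me ce oe hea heb ase z
    rw [rm0 me oe, mX]
    constructor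
    · rintro ⟨h1 | h1 | h1 | h1 | h1, h2, h3⟩
      · rw [h1] at h2
        rcases (nbu e).1 h2.symm with h | h | h
        · exact absurd h.symm (ne_col cv ce)
        · exact absurd h hea
        · exact absurd h heb
      · rw [h1] at h2
        rcases (nbt e).1 h2.symm with h | h | h
        · exact absurd h.symm (ne_col cr ce)
        · exact absurd h hea
        · exact absurd h heb
      · rw [h1, ca, ce] at h3
        exact absurd rfl h3
      · rw [h1, cb, ce] at h3
        exact absurd rfl h3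
      · exact h1
    · rintro rfl
      exact ⟨Or.inr (Or.inr (Or.inr (Or.inr rfl))), ase.symm, by rw [cs, ce]; decide⟩
  have Rp := Rpq p mp cp op hpa hpb asp
  have Rq := Rpq q mq cq oq hqa hqb asq
  refine ⟨cn G {u, t, a, b, s}, Blk.of2 (f := ![p, s, q]) (g := ![a, w, b]) (H := pth 3)
    (fun _ h => h) ?_ (comp3 hpq fp Rp Rs Rq) (comp3 hab fa Ra Rw Rb) ?_ ?_ ?_⟩
  · unfold dd
    rw [Finset.sum_insert (by simp [hut, ne_col cu ca, ne_col cu cb, hsu.symm]),
      Finset.sum_insert (by simp [ne_col ct ca, ne_col ct cb, hst.symm]),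
      Finset.sum_insert (by simp [hab, (ne_col cs ca).symm]),
      Finset.sum_pair (ne_col cs cb).symm, cu, ct, ca, cb, cs]
    norm_num
  · intro i
    fin_cases i
    · exact mem_cn.2 (Or.inr ⟨s, is, asp.symm⟩)
    · exact mem_cn.2 (Or.inl is)
    · exact mem_cn.2 (Or.inr ⟨s, is, asq.symm⟩)
  · intro i
    fin_cases i
    · exact mem_cn.2 (Or.inl ia)
    · exact mem_cn.2 (Or.inr ⟨a, ia, ((nba w).2 (Or.inr (Or.inr rfl))).symm⟩)
    · exact mem_cn.2 (Or.inl ib)
  · intro z h1 h2
    have hp : z ≠ p := h1 0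
    have hs : z ≠ s := h1 1
    have hq : z ≠ q := h1 2
    have ha : z ≠ a := h2 0
    have hw : z ≠ w := h2 1
    have hb : z ≠ b := h2 2
    by_cases hu : z = u
    · rw [hu]
      exact mu_le_one (z := u) fun y' h => absurd h (Ru y')
    · by_cases ht : z = t
      · rw [ht]
        exact mu_le_one (z := u) fun y' h => absurd h (Rt y')
      · refine mu_old hm (nX z hu ht ha hb hs) ?_
        intro q' hq' hz hc
        rcases (mX q').1 hq' with h | h | h | h | h
        · rw [h] at hz hc
          rcases (nbu z).1 hz.symm with h | h | h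
          · rw [h, cu, cv] at hc
            exact hc rfl
          · exact ha h
          · exact hb h
        · rw [h] at hz hc
          rcases (nbt z).1 hz.symm with h | h | h
          · rw [h, ct, cr] at hc
            exact hc rfl
          · exact ha h
          · exact hb h
        · rw [h] at hz
          rcases (nba z).1 hz.symm with h | h | h
          · exact hu h
          · exact ht h
          · exact hw h
        · rw [h] at hz
          rcases (nbb z).1 hz.symm with h | h | h
          · exact hu h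
          · exact ht h
          · exact hw h
        · rw [h] at hz hc
          rcases (nbs z).1 hz.symm with h | h | h
          · rw [h, cs, cm] at hc
            exact hc rfl
          · exact hp h
          · exact hq h

end Pool.Agent.Helper78.MC
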