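import Pool.Agent.Helper91.MC.K1

/-!
MP_4042d8_co, row K2: conflicts of the flips of `T1`-vertices of `M`-slots.
-/

namespace Pool.Agent.Helper78.MC

open Pool.Agent.Helper27.MC Pool.Agent.Helper91.MC

set_option autoImplicit false
set_option linter.unusedSectionVars false

section

variable {V : Type} [Fintype V] [DecidableEq V] {G : SimpleGraph V} [DecidableRel G.Adj]
  {c : V → Bool}

/-- the members of the territory of a single `false` vertex -/
theorem mem_ter_one (hmu : ∀ v, mu G c v ≤ 1) {t y : V} (ht : tS G c t)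
    (hy : y ∈ ter G c {t}) :
    (tS G c y ∧ (y = t ∨ Mt G c y t)) ∨ (tA G c y ∧ G.Adj t y) ∨
    (tQ G c y ∧ ∃ q, G.Adj t q ∧ tQ G c q ∧ (y = q ∨ Mt G c q y)) := by
  have key : ∀ x, x ∈ cn G {t} →
      (tS G c x ∧ (x = t ∨ Mt G c x t)) ∨ (tA G c x ∧ G.Adj t x) ∨ (tQ G c x ∧ G.Adj t x) := by
    intro x hx
    unfold cn at hx
    rw [Finset.mem_filter] at hx
    rcases hx.2 with hx | ⟨z, hz, hzx⟩
    · rw [Finset.mem_singleton] at hx
      subst hx
      exact Or.inl ⟨ht, Or.inl rfl⟩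
    · rw [Finset.mem_singleton] at hz
      subst hz
      cases hcx : c x
      · have hm : Mt G c x z := ⟨hzx, by rw [hcx, ht.1]⟩
        exact Or.inl ⟨tS_of_mt (hmu x) hcx hm, Or.inr hm⟩
      · have h1 := hmu x
        rcases Nat.lt_or_ge 0 (mu G c x) with h | h
        · exact Or.inr (Or.inr ⟨⟨hcx, by omega⟩, hzx.symm⟩)
        · exact Or.inr (Or.inl ⟨⟨hcx, by omega⟩, hzx.symm⟩)
  unfold ter at hy
  rw [Finset.mem_filter] at hy
  rcases hy.2 with hy | ⟨x, hx, hxy, hc⟩
  · rcases key y hy with h | h | h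
    · exact Or.inl h
    · exact Or.inr (Or.inl h)
    · exact Or.inr (Or.inr ⟨h.1, y, h.2, h.1, Or.inl rfl⟩)
  · have hm : Mt G c x y := ⟨hxy, hc⟩
    rcases key x hx with ⟨h1, h2⟩ | h | h
    · have hyS : tS G c y := tS_of_mt (hmu y) (by rw [← hc, h1.1]) (mt_symm hm)
      rcases h2 with rfl | h2
      · exact Or.inl ⟨hyS, Or.inr (mt_symm hm)⟩
      · exact Or.inl ⟨hyS, Or.inl (mt_uniq (hmu x) hm h2)⟩
    · exact (tA_not_mt h.1 hm).elim
    · have hyQ : tQ G c y := ⟨by rw [← hc, h.1.1], le_antisymm (hmu y) (mt_mu (mt_symm hm))⟩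
      exact Or.inr (Or.inr ⟨hyQ, x, h.2, h.1, Or.inr hm⟩)

/-- the `Q`-neighbour of a `T1`-vertex is unique -/
theorem t1_uniqQ (hG : G.IsRegularOfDegree 3) {t q q' : V} (h : T1 G c t) (hq : tQ G c q)
    (hq' : tQ G c q') (h1 : G.Adj t q) (h2 : G.Adj t q') : q = q' := by
  by_contra hne
  obtain ⟨hS, _, ⟨a, ha, ha'⟩⟩ := h
  have hc := cut_card (c := c) hG t
  rw [hS.2] at hc
  have hqa : a ≠ q := by
    rintro rfl
    have h3 := hq.2
    have h4 := ha'.2
    omega
  have hqa' : a ≠ q' := by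
    rintro rfl
    have h3 := hq'.2
    have h4 := ha'.2
    omega
  have hsub : ({a, q, q'} : Finset V) ⊆
      Finset.univ.filter (fun w => G.Adj t w ∧ ¬ c w = c t) := by
    intro w hw
    simp only [Finset.mem_insert, Finset.mem_singleton] at hw
    rw [Finset.mem_filter]
    refine ⟨Finset.mem_univ _, ?_⟩
    rcases hw with rfl | rfl | rfl
    · exact ⟨ha, by rw [ha'.1, hS.1]; simp⟩
    · exact ⟨h1, by rw [hq.1, hS.1]; simp⟩
    · exact ⟨h2, by rw [hq'.1, hS.1]; simp⟩
  have h3 := Finset.card_le_card hsub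
  rw [Finset.card_insert_of_notMem (by simp [hqa, hqa']), Finset.card_pair hne] at h3
  omega

/-- the `T1`-vertex of an `M`-slot is determined by its `A`-vertex -/
theorem msl_uniq (hcl2 : ∀ u u' a : V, IsSl G c u a → IsSl G c u' a → u = u')
    {u u' a t t' : V} (h : Msl G c u a t) (h' : Msl G c u' a t') : t = t' := by
  by_contra hne
  have hu : u' = u := hcl2 u' u a h'.1 h.1
  subst hu
  have h1 := h.2.2.2.2 t' h'.2.1 h'.2.2.1 (fun e => hne e.symm)
  have e1 := h1.2
  have e2 := h'.2.2.2.1.1.2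
  omega

/-- the `T1`-vertices of the `M`-slots at `a` -/
def Ta (G : SimpleGraph V) [DecidableRel G.Adj] (c : V → Bool) (a : V) : Finset V :=
  Finset.univ.filter (fun t => ∃ u, Msl G c u a t)

theorem Ta_card (hcl2 : ∀ u u' a : V, IsSl G c u a → IsSl G c u' a → u = u') (a : V) :
    (Ta G c a).card ≤ 1 := by
  refine Finset.card_le_one.2 (fun t ht t' ht' => ?_)
  unfold Ta at ht ht'
  rw [Finset.mem_filter] at ht ht'
  obtain ⟨_, u, h⟩ := ht
  obtain ⟨_, u', h'⟩ := ht'
  exact msl_uniq hcl2 h h'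

/-- the mates of a vertex -/
def Ma (G : SimpleGraph V) [DecidableRel G.Adj] (c : V → Bool) (x : V) : Finset V :=
  Finset.univ.filter (fun t => G.Adj x t ∧ c x = c t)

theorem Ma_card (hmu : ∀ v, mu G c v ≤ 1) (x : V) : (Ma G c x).card ≤ 1 := by
  refine Finset.card_le_one.2 (fun t ht t' ht' => ?_)
  unfold Ma at ht ht'
  rw [Finset.mem_filter] at ht ht'
  exact mt_uniq (hmu x) ht.2 ht'.2

theorem mem_Ma {x t : V} : t ∈ Ma G c x ↔ Mt G c x t := by
  unfold Ma Mt
  rw [Finset.mem_filter]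
  simp

theorem mem_Ta {a t : V} : t ∈ Ta G c a ↔ ∃ u, Msl G c u a t := by
  unfold Ta
  rw [Finset.mem_filter]
  simp

/-- the `T1`-vertices of `M`-slots in conflict with a slot -/
theorem conf_slot_one (hG : G.IsRegularOfDegree 3) (hmu : ∀ v, mu G c v ≤ 1)
    (hcl : ∀ u a : V, IsSl G c u a → Nsl G c u a ∨ ∃ t, Msl G c u a t)
    (hcl2 : ∀ u u' a : V, IsSl G c u a → IsSl G c u' a → u = u')
    {u a u' a' t y : V} (hs : IsSl G c u a) (hm : Msl G c u' a' t)
    (hy : y ∈ ter G c {u, a}) (hy' : y ∈ ter G c {t}) :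
    t ∈ Ma G c u ∨ (∃ b, G.Adj u b ∧ tA G c b ∧ t ∈ Ta G c b) ∨
    (∃ t0, t0 ∈ Ta G c a ∧ t ∈ Ma G c t0) := by
  have hT : T1 G c t := hm.2.2.2.1
  have h1 := mem_ter_slot hmu hcl hs hy
  have h2 := mem_ter_one hmu hT.1 hy'
  rcases h1 with ⟨h1, h3⟩ | ⟨h1, h3⟩ | ⟨h1, h3⟩
  · rcases h2 with ⟨_, h4⟩ | ⟨h2, _⟩ | ⟨h2, _⟩
    · rcases h3 with h3 | ⟨t0, ht0, h3⟩
      · rcases mt_chain hmu h3 h4 with h | h
        · exact (fr_not_t1 hs.1 (h ▸ hT)).elim
        · exact Or.inl (mem_Ma.2 h)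
      · rcases mt_chain hmu h3 h4 with h | h
        · refine Or.inr (Or.inl ⟨a, hs.2.2, hs.2.1, mem_Ta.2 ⟨u, ?_⟩⟩)
          rw [h]
          exact ht0
        · exact Or.inr (Or.inr ⟨t0, mem_Ta.2 ⟨u, ht0⟩, mem_Ma.2 h⟩)
    · have e1 := h1.2
      have e2 := h2.2
      omega
    · have e1 := h1.1
      have e2 := h2.1
      rw [e1] at e2
      simp at e2
  · rcases h2 with ⟨h2, _⟩ | ⟨_, h4⟩ | ⟨h2, _⟩
    · have e1 := h1.2
      have e2 := h2.2
      omega
    · have he : y = a' := t1_uniq hG hT h1 hm.1.2.1 h4 hm.2.1.symm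
      refine Or.inr (Or.inl ⟨y, h3, h1, mem_Ta.2 ⟨u', ?_⟩⟩)
      rw [he]
      exact hm
    · have e1 := h1.2
      have e2 := h2.2
      omega
  · rcases h2 with ⟨h2, _⟩ | ⟨h2, _⟩ | ⟨h2, _⟩
    · have e1 := h1.2
      have e2 := h2.2
      omega
    · have e1 := h1.1
      have e2 := h2.1
      rw [e1] at e2
      simp at e2
    · have e1 := h1.2
      have e2 := h2.2
      omega

/-- an `S`-neighbour of a `Q`-vertex is unique (no triangles) -/
theorem q_uniq (hT : NoTri G)
    (hF : ∀ q s s' : V, tQ G c q → G.Adj q s → G.Adj q s' → s ≠ s' → tS G c s → tS G c s' →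
        G.Adj s s')
    {q s s' : V} (hq : tQ G c q) (h : G.Adj q s) (h' : G.Adj q s') (hs : tS G c s)
    (hs' : tS G c s') : s = s' := by
  by_contra hne
  exact hT q s s' h (hF q s s' hq h h' hne hs hs') h'

end

/-- row K2 -/
theorem K2 (hC : ST_CLS) (hF1 : ST_F1) : ST_K2 := by
  intro V _ _ G _ hG hT hQ c j hO hj
  obtain ⟨hcl, hcl2⟩ := hC V G hG hT hQ c j hO hj
  have hF := hF1 V G hG c j hO (by omega)
  have hmu := hO.mu1
  refine ⟨?_, ?_, ?_⟩
  · intro u a hs
    -- the true neighbours of u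
    have hc := cut_card (c := c) hG u
    rw [hs.1.1.2] at hc
    have hb : ∃ b, ∀ y, G.Adj u y → tA G c y → y = a ∨ y = b := by
      have ha : a ∈ Finset.univ.filter (fun w => G.Adj u w ∧ ¬ c w = c u) := by
        rw [Finset.mem_filter]
        exact ⟨Finset.mem_univ _, hs.2.2, by rw [hs.2.1.1, hs.1.1.1]; simp⟩
      have h3 := Finset.card_erase_add_one ha
      have h4 : ((Finset.univ.filter (fun w => G.Adj u w ∧ ¬ c w = c u)).erase a).card = 1 := by
        omega
      obtain ⟨b, hb⟩ := Finset.card_eq_one.1 h4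
      refine ⟨b, fun y hy hA => ?_⟩
      by_cases hya : y = a
      · exact Or.inl hya
      · have : y ∈ (Finset.univ.filter (fun w => G.Adj u w ∧ ¬ c w = c u)).erase a := by
          rw [Finset.mem_erase, Finset.mem_filter]
          exact ⟨hya, Finset.mem_univ _, hy, by rw [hA.1, hs.1.1.1]; simp⟩
        rw [hb, Finset.mem_singleton] at this
        exact Or.inr this
    obtain ⟨b, hb⟩ := hb
    have hM : (∃ t0, t0 ∈ Ta G c a) ∨ ¬ ∃ t0, t0 ∈ Ta G c a := Classical.em _
    have hr : ∃ R : Finset V, R.card ≤ 1 ∧ ∀ t0 t, t0 ∈ Ta G c a → t ∈ Ma G c t0 → t ∈ R := by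
      rcases hM with ⟨t0, h0⟩ | h0
      · refine ⟨Ma G c t0, Ma_card hmu t0, fun t1 t h1 h2 => ?_⟩
        have : t1 = t0 := Finset.card_le_one.1 (Ta_card hcl2 a) t1 h1 t0 h0
        rw [← this]
        exact h2
      · exact ⟨∅, by simp, fun t1 t h1 _ => (h0 ⟨t1, h1⟩).elim⟩
    obtain ⟨R, hR1, hR2⟩ := hr
    have hsub : (Finset.univ.filter (fun t : V => (∃ u' a', Msl G c u' a' t) ∧
          ¬ Disjoint (ter G c {u, a}) (ter G c {t}))) ⊆
        (Ma G c u ∪ Ta G c a) ∪ (Ta G c b ∪ R) := by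
      intro t ht
      rw [Finset.mem_filter, Finset.not_disjoint_iff] at ht
      obtain ⟨_, ⟨u', a', hm⟩, y, hy, hy'⟩ := ht
      simp only [Finset.mem_union]
      rcases conf_slot_one hG hmu hcl hcl2 hs hm hy hy' with h | ⟨b', h1, h2, h3⟩ | ⟨t0, h1, h2⟩
      · exact Or.inl (Or.inl h)
      · rcases hb b' h1 h2 with h | h
        · exact Or.inl (Or.inr (h ▸ h3))
        · exact Or.inr (Or.inl (h ▸ h3))
      · exact Or.inr (Or.inr (hR2 t0 t h1 h2))
    have h1 := Finset.card_le_card hsub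
    have h2 := Finset.card_union_le (Ma G c u ∪ Ta G c a) (Ta G c b ∪ R)
    have h3 := Finset.card_union_le (Ma G c u) (Ta G c a)
    have h4 := Finset.card_union_le (Ta G c b) R
    have h5 := Ma_card hmu u
    have h6 := Ta_card hcl2 a
    have h7 := Ta_card hcl2 b
    omega
  · intro u a u' a' t hs hm hd
    rw [Finset.disjoint_left] at hd ⊢
    intro y hy hy'
    have hT1 : T1 G c t := hm.2.2.2.1
    have hta : t ∈ cn G {u', a'} := by
      unfold cn
      rw [Finset.mem_filter]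
      exact ⟨Finset.mem_univ _, Or.inr ⟨a', by simp, hm.2.1.symm⟩⟩
    rcases mem_ter_one hmu hT1.1 hy' with ⟨h1, h2⟩ | ⟨h1, h2⟩ | ⟨h1, _⟩
    · refine hd hy ?_
      unfold ter
      rw [Finset.mem_filter]
      refine ⟨Finset.mem_univ _, ?_⟩
      rcases h2 with h2 | h2
      · exact Or.inl (h2 ▸ hta)
      · exact Or.inr ⟨t, hta, h2.1.symm, h2.2.symm⟩
    · have he : y = a' := t1_uniq hG hT1 h1 hm.1.2.1 h2 hm.2.1.symm
      refine hd hy ?_
      unfold ter
      rw [Finset.mem_filter]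
      refine ⟨Finset.mem_univ _, Or.inl ?_⟩
      unfold cn
      rw [Finset.mem_filter]
      exact ⟨Finset.mem_univ _, Or.inl (by rw [he]; simp)⟩
    · rcases mem_ter_slot hmu hcl hs hy with ⟨h3, _⟩ | ⟨h3, _⟩ | ⟨h3, _⟩
      · have e1 := h1.1
        have e2 := h3.1
        rw [e1] at e2
        simp at e2
      · have e1 := h1.2
        have e2 := h3.2
        omega
      · have e1 := h1.2
        have e2 := h3.2
        omega
  · rintro t ⟨u, a, hm⟩
    have hT1 : T1 G c t := hm.2.2.2.1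
    have hX : ∃ R : Finset V, R.card ≤ 1 ∧ ∀ q q' x, G.Adj t q → tQ G c q → Mt G c q q' →
        G.Adj q' x → tS G c x → x ∈ R := by
      obtain ⟨_, ⟨q, hq, hqQ⟩, _⟩ := hT1
      obtain ⟨r, hr⟩ := mt_ex hqQ.2
      have hrQ : tQ G c r := ⟨by rw [← hr.2, hqQ.1], le_antisymm (hmu r) (mt_mu (mt_symm hr))⟩
      refine ⟨Finset.univ.filter (fun x => G.Adj r x ∧ tS G c x), ?_, ?_⟩
      · refine Finset.card_le_one.2 (fun x hx x' hx' => ?_)
        rw [Finset.mem_filter] at hx hx'
        exact q_uniq hT hF hrQ hx.2.1 hx'.2.1 hx.2.2 hx'.2.2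
      · intro q1 q2 x h1 h2 h3 h4 h5
        have e1 : q1 = q := t1_uniqQ hG hm.2.2.2.1 h2 hqQ h1 hq
        subst e1
        have e2 : q2 = r := mt_uniq (hmu q1) h3 hr
        subst e2
        rw [Finset.mem_filter]
        exact ⟨Finset.mem_univ _, h4, h5⟩
    obtain ⟨R, hR1, hR2⟩ := hX
    have hsub : (Finset.univ.filter (fun t' : V => (∃ u' a', Msl G c u' a' t') ∧
          ¬ Disjoint (ter G c {t}) (ter G c {t'}))) ⊆ {t} ∪ (Ma G c t ∪ R) := by
      intro t' ht'
      rw [Finset.mem_filter, Finset.not_disjoint_iff] at ht'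
      obtain ⟨_, ⟨u', a', hm'⟩, y, hy, hy'⟩ := ht'
      have hT1' : T1 G c t' := hm'.2.2.2.1
      simp only [Finset.mem_union, Finset.mem_singleton]
      rcases mem_ter_one hmu hT1.1 hy with ⟨h1, h2⟩ | ⟨h1, h2⟩ | ⟨h1, q, h2, h3, h4⟩
      · rcases mem_ter_one hmu hT1'.1 hy' with ⟨_, h6⟩ | ⟨h5, _⟩ | ⟨h5, _⟩
        · rcases mt_chain hmu h2 h6 with h | h
          · exact Or.inl h
          · exact Or.inr (Or.inl (mem_Ma.2 h))
        · have e1 := h1.2
          have e2 := h5.2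
          omega
        · have e1 := h1.1
          have e2 := h5.1
          rw [e1] at e2
          simp at e2
      · rcases mem_ter_one hmu hT1'.1 hy' with ⟨h5, _⟩ | ⟨_, h6⟩ | ⟨h5, _⟩
        · have e1 := h1.2
          have e2 := h5.2
          omega
        · have e1 : y = a := t1_uniq hG hT1 h1 hm.1.2.1 h2 hm.2.1.symm
          have e2 : y = a' := t1_uniq hG hT1' h1 hm'.1.2.1 h6 hm'.2.1.symm
          rw [← e1] at hm
          rw [← e2] at hm'
          exact Or.inl (msl_uniq hcl2 hm' hm)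
        · have e1 := h1.2
          have e2 := h5.2
          omega
      · rcases mem_ter_one hmu hT1'.1 hy' with ⟨h5, _⟩ | ⟨h5, _⟩ | ⟨_, q', h5, h6, h7⟩
        · have e1 := h1.1
          have e2 := h5.1
          rw [e1] at e2
          simp at e2
        · have e1 := h1.2
          have e2 := h5.2
          omega
        · -- q and q' are equal or mates
          have h8 : q' = q ∨ Mt G c q q' := by
            have h4' : y = q ∨ Mt G c y q := by
              rcases h4 with h | h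
              · exact Or.inl h
              · exact Or.inr (mt_symm h)
            have h7' : y = q' ∨ Mt G c y q' := by
              rcases h7 with h | h
              · exact Or.inl h
              · exact Or.inr (mt_symm h)
            exact mt_chain hmu h4' h7'
          rcases h8 with h8 | h8
          · subst h8
            exact Or.inl (q_uniq hT hF h6 h5.symm h2.symm hT1'.1 hT1.1)
          · exact Or.inr (Or.inr (hR2 q q' t' h2 h3 h8 h5.symm hT1'.1))
    have h1 := Finset.card_le_card hsub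
    have h2 := Finset.card_union_le ({t} : Finset V) (Ma G c t ∪ R)
    have h3 := Finset.card_union_le (Ma G c t) R
    have h4 : ({t} : Finset V).card = 1 := Finset.card_singleton t
    have h5 := Ma_card hmu t
    omega

end Pool.Agent.Helper78.MC
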