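import Pool.Agent.Helper78.MC.SQ

/-!
MP_4042d8_co, rows X_C1, X_C2: units at a 3-hub.
-/

namespace Pool.Agent.Helper78.MC

open Pool.Agent.Helper27.MC Pool.Agent.Helper51.MC Pool.Agent.Helper88.MC Pool.Agent.Helper64.MC
  Pool.Agent.Helper91.MC

set_option autoImplicit false
set_option linter.unusedSectionVars false

section

variable {V : Type} [Fintype V] [DecidableEq V] {G : SimpleGraph V} [DecidableRel G.Adj]
  {c : V → Bool}

/-- distinctness facts at a 3-hub; `e`, `f` are the true neighbours of `v1` -/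
structure HF (G : SimpleGraph V) [DecidableRel G.Adj] (c : V → Bool)
    (a s1 s2 s3 v1 v2 v3 p1 p2 p3 e f : V) : Prop where
  na : ∀ x, x = v1 ∨ x = v2 ∨ x = v3 → ¬ G.Adj x a
  ea : e ≠ a
  fa : f ≠ a
  v12 : v1 ≠ v2
  v13 : v1 ≠ v3
  v1s2 : v1 ≠ s2
  v1s3 : v1 ≠ s3
  v2s1 : v2 ≠ s1
  v2s3 : v2 ≠ s3
  v3s1 : v3 ≠ s1
  v3s2 : v3 ≠ s2

theorem hf (hm : ∀ v, mu G c v ≤ 1) {a s1 s2 s3 v1 v2 v3 p1 p2 p3 e f : V}
    (H : Hub3 G c a s1 s2 s3 v1 v2 v3 p1 p2 p3) (S1 : Sv G c v1 s1 e f) :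
    HF G c a s1 s2 s3 v1 v2 v3 p1 p2 p3 e f := by
  have r1 := sv_rm H.h1
  have r2 := sv_rm H.h2
  have r3 := sv_rm H.h3
  have v1s2 : v1 ≠ s2 := by
    rintro rfl
    exact H.n12 r1
  have v1s3 : v1 ≠ s3 := by
    rintro rfl
    exact H.n13 r1
  have v2s1 : v2 ≠ s1 := by
    rintro rfl
    exact H.n12 r2.symm
  have v2s3 : v2 ≠ s3 := by
    rintro rfl
    exact H.n23 r2
  have v3s1 : v3 ≠ s1 := by
    rintro rfl
    exact H.n13 r3.symm
  have v3s2 : v3 ≠ s2 := by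
    rintro rfl
    exact H.n23 r3.symm
  have na : ∀ x, x = v1 ∨ x = v2 ∨ x = v3 → ¬ G.Adj x a := by
    intro x hx h
    have h' := (H.av.n3.nb x).1 h.symm
    rcases hx with rfl | rfl | rfl
    · rcases h' with h' | h' | h'
      · exact r1.ne h'.symm
      · exact v1s2 h'
      · exact v1s3 h'
    · rcases h' with h' | h' | h'
      · exact v2s1 h'
      · exact r2.ne h'.symm
      · exact v2s3 h'
    · rcases h' with h' | h' | h'
      · exact v3s1 h'
      · exact v3s2 h'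
      · exact r3.ne h'.symm
  refine ⟨na, ?_, ?_, ?_, ?_, v1s2, v1s3, v2s1, v2s3, v3s1, v3s2⟩
  · rintro rfl
    exact na v1 (Or.inl rfl) ((S1.n3.nb e).2 (Or.inr (Or.inl rfl)))
  · rintro rfl
    exact na v1 (Or.inl rfl) ((S1.n3.nb f).2 (Or.inr (Or.inr rfl)))
  · rintro rfl
    exact H.av.n3.xy (rm_uniq (hm v1) r1.symm r2.symm)
  · rintro rfl
    exact H.av.n3.xz (rm_uniq (hm v1) r1.symm r3.symm)

end

/-- row X_C2 -/
theorem st_C2 : ST_C2 := by
  intro V _ _ G _ hG c hm a s1 s2 s3 v1 v2 v3 p1 p2 p3 z H S1 Ap Az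
  have F := hf hm H S1
  have r1 := sv_rm H.h1
  have r2 := sv_rm H.h2
  have r3 := sv_rm H.h3
  have ca := H.av.ca
  have cs1 := H.h1.cs
  have cs2 := H.h2.cs
  have cs3 := H.h3.cs
  have cv1 := H.h1.cm
  have cv2 := H.h2.cm
  have cv3 := H.h3.cm
  have cp1 := H.h1.cb
  have cp2 := H.h2.cb
  have cp3 := H.h3.cb
  have cz := Az.1
  have nba := H.av.n3.nb
  have nb1 := H.h1.n3.nb
  have nb2 := H.h2.n3.nb
  have nb3 := H.h3.n3.nb
  have nbv := S1.n3.nb
  have s12 : s1 ≠ s2 := H.av.n3.xy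
  have s13 : s1 ≠ s3 := H.av.n3.xz
  have s23 : s2 ≠ s3 := H.av.n3.yz
  have hpz : p2 ≠ z := S1.n3.yz
  have hza : z ≠ a := F.fa
  have hp1a : p1 ≠ a := H.h1.n3.yz.symm
  have hp2a : p2 ≠ a := H.h2.n3.yz.symm
  have hp3a : p3 ≠ a := H.h3.n3.yz.symm
  have mX : ∀ x, x ∈ ({s2, a, v1} : Finset V) ↔ x = s2 ∨ x = a ∨ x = v1 := by
    intro x
    simp
  have nX : ∀ x, x ≠ s2 → x ≠ a → x ≠ v1 → x ∉ ({s2, a, v1} : Finset V) := by
    intro x h1 h2 h3 h
    rcases (mX x).1 h with h | h | h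
    · exact h1 h
    · exact h2 h
    · exact h3 h
  have is2 : s2 ∈ ({s2, a, v1} : Finset V) := by simp
  have ia : a ∈ ({s2, a, v1} : Finset V) := by simp
  have iv1 : v1 ∈ ({s2, a, v1} : Finset V) := by simp
  have os1 := nX s1 s12 (ne_col cs1 ca) r1.ne
  have os3 := nX s3 s23.symm (ne_col cs3 ca) F.v1s3.symm
  have ov2 := nX v2 r2.ne.symm (ne_col cv2 ca) F.v12.symm
  have ov3 := nX v3 F.v3s2 (ne_col cv3 ca) F.v13.symm
  have op1 := nX p1 (ne_col cs2 cp1).symm hp1a (ne_col cv1 cp1).symm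
  have op2 := nX p2 (ne_col cs2 cp2).symm hp2a (ne_col cv1 cp2).symm
  have op3 := nX p3 (ne_col cs2 cp3).symm hp3a (ne_col cv1 cp3).symm
  have oz := nX z (ne_col cs2 cz).symm hza (ne_col cv1 cz).symm
  have fs2 : flp c {s2, a, v1} s2 = true := by rw [flp_in is2, cs2]; rfl
  have fa : flp c {s2, a, v1} a = false := by rw [flp_in ia, ca]; rfl
  have fv1 : flp c {s2, a, v1} v1 = true := by rw [flp_in iv1, cv1]; rfl
  have fs1 : flp c {s2, a, v1} s1 = false := by rw [flp_not os1, cs1]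
  have fs3 : flp c {s2, a, v1} s3 = false := by rw [flp_not os3, cs3]
  have fv2 : flp c {s2, a, v1} v2 = false := by rw [flp_not ov2, cv2]
  have fv3 : flp c {s2, a, v1} v3 = false := by rw [flp_not ov3, cv3]
  have fp1 : flp c {s2, a, v1} p1 = true := by rw [flp_not op1, cp1]
  have fp2 : flp c {s2, a, v1} p2 = true := by rw [flp_not op2, cp2]
  have fp3 : flp c {s2, a, v1} p3 = true := by rw [flp_not op3, cp3]
  have fz : flp c {s2, a, v1} z = true := by rw [flp_not oz, cz]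
  have Rs2 : ∀ x, Rm G (flp c {s2, a, v1}) s2 x ↔ x = p2 := by
    intro x
    rw [rm3 nb2, fs2, fv2, fa, fp2]
    simp
  have Ra : ∀ x, Rm G (flp c {s2, a, v1}) a x ↔ x = s1 ∨ x = s3 := by
    intro x
    rw [rm3 nba, fs1, fs2, fs3, fa]
    simp
  have Rv1 : ∀ x, Rm G (flp c {s2, a, v1}) v1 x ↔ x = p2 ∨ x = z := by
    intro x
    rw [rm3 nbv, fs1, fp2, fz, fv1]
    simp
  have Rs1 : ∀ x, Rm G (flp c {s2, a, v1}) s1 x ↔ x = a := by
    intro x
    rw [rm3 nb1, fs1, fv1, fa, fp1]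
    simp
  have Rs3 : ∀ x, Rm G (flp c {s2, a, v1}) s3 x ↔ x = a ∨ x = v3 := by
    intro x
    rw [rm3 nb3, fs3, fv3, fa, fp3]
    simp
    tauto
  have Rv3 : ∀ x, Rm G (flp c {s2, a, v1}) v3 x ↔ x = s3 := by
    intro x
    rw [rm_out ov3, mX]
    constructor
    · rintro (⟨h1, h2⟩ | ⟨h1 | h1 | h1, h2, h3⟩)
      · exact rm_uniq (hm v3) h2 r3.symm
      · rw [h1, cs2, cv3] at h3
        exact absurd rfl h3
      · rw [h1] at h2
        exact absurd h2 (F.na v3 (Or.inr (Or.inr rfl)))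
      · rw [h1, cv1, cv3] at h3
        exact absurd rfl h3
    · rintro rfl
      exact Or.inl ⟨fun h => os3 ((mX x).2 h), r3.symm⟩
  have Rp2 : ∀ x, Rm G (flp c {s2, a, v1}) p2 x ↔ x = s2 ∨ x = v1 := by
    intro x
    rw [rm0 Ap.2 op2, mX]
    constructor
    · rintro ⟨h1 | h1 | h1, h2, h3⟩
      · exact Or.inl h1
      · rw [h1, ca, cp2] at h3
        exact absurd rfl h3
      · exact Or.inr h1
    · rintro (rfl | rfl)
      · exact ⟨Or.inl rfl, ((nb2 p2).2 (Or.inr (Or.inr rfl))).symm, by rw [cs2, cp2]; decide⟩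
      · exact ⟨Or.inr (Or.inr rfl), ((nbv p2).2 (Or.inr (Or.inl rfl))).symm,
          by rw [cv1, cp2]; decide⟩
  have Rz : ∀ x, Rm G (flp c {s2, a, v1}) z x ↔ x = v1 := by
    intro x
    rw [rm0 Az.2 oz, mX]
    constructor
    · rintro ⟨h1 | h1 | h1, h2, h3⟩
      · rw [h1] at h2
        rcases (nb2 z).1 h2.symm with h | h | h
        · exact absurd h.symm (ne_col cv2 cz)
        · exact absurd h hza
        · exact absurd h hpz.symm
      · rw [h1, ca, cz] at h3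
        exact absurd rfl h3
      · exact h1
    · rintro rfl
      exact ⟨Or.inr (Or.inr rfl), ((nbv z).2 (Or.inr (Or.inr rfl))).symm,
          by rw [cv1, cz]; decide⟩
  have as1 : G.Adj s1 a := ((nba s1).2 (Or.inl rfl)).symm
  have as3 : G.Adj s3 a := ((nba s3).2 (Or.inr (Or.inr rfl))).symm
  refine ⟨ter G c {s2, a, v1}, Blk.of2 (f := ![s2, p2, v1, z]) (g := ![s1, a, s3, v3]) (H := pth 4)
    cn_ter ?_ (comp4 F.v1s2.symm hpz fs2 Rs2 Rp2 Rv1 Rz)
    (comp4 s13 (ne_col cv3 ca).symm fs1 Rs1 Ra Rs3 Rv3) ?_ ?_ ?_⟩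
  · unfold dd
    rw [Finset.sum_insert (by simp [ne_col cs2 ca, F.v1s2.symm]),
      Finset.sum_pair (ne_col cv1 ca).symm, cs2, ca, cv1]
    norm_num
  · intro i
    fin_cases i
    · exact cn_ter (mem_cn.2 (Or.inl is2))
    · exact cn_ter (mem_cn.2 (Or.inr ⟨s2, is2, ((nb2 p2).2 (Or.inr (Or.inr rfl))).symm⟩))
    · exact cn_ter (mem_cn.2 (Or.inl iv1))
    · exact cn_ter (mem_cn.2 (Or.inr ⟨v1, iv1, ((nbv z).2 (Or.inr (Or.inr rfl))).symm⟩))
  · intro i
    fin_cases i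
    · exact cn_ter (mem_cn.2 (Or.inr ⟨a, ia, as1⟩))
    · exact cn_ter (mem_cn.2 (Or.inl ia))
    · exact cn_ter (mem_cn.2 (Or.inr ⟨a, ia, as3⟩))
    · exact ter_mate (mem_cn.2 (Or.inr ⟨a, ia, as3⟩)) r3
  · intro x h1 h2
    have hs2 : x ≠ s2 := h1 0
    have hp2 : x ≠ p2 := h1 1
    have hv1 : x ≠ v1 := h1 2
    have hz : x ≠ z := h1 3
    have hs1 : x ≠ s1 := h2 0
    have ha : x ≠ a := h2 1
    have hs3 : x ≠ s3 := h2 2
    refine mu_old hm (nX x hs2 ha hv1) ?_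
    intro q hq hz' hc
    rcases (mX q).1 hq with h | h | h
    · rw [h] at hz' hc
      rcases (nb2 x).1 hz'.symm with h | h | h
      · rw [h, cs2, cv2] at hc
        exact hc rfl
      · exact ha h
      · exact hp2 h
    · rw [h] at hz'
      rcases (nba x).1 hz'.symm with h | h | h
      · exact hs1 h
      · exact hs2 h
      · exact hs3 h
    · rw [h] at hz'
      rcases (nbv x).1 hz'.symm with h | h | h
      · exact hs1 h
      · exact hp2 h
      · exact hz h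

/-- row X_C1 -/
theorem st_C1 : ST_C1 := by
  intro V _ _ G _ hG c hm a s1 s2 s3 v1 v2 v3 p1 p2 p3 y q H Ap S1 Ay Aq hpy
  have F := hf hm H S1
  obtain ⟨q', hq'⟩ := exists_mate Aq.2
  have ma : mu G c a = 0 := av_mu H.av
  have r1 := sv_rm H.h1
  have r2 := sv_rm H.h2
  have r3 := sv_rm H.h3
  have ca := H.av.ca
  have cs1 := H.h1.cs
  have cs2 := H.h2.cs
  have cs3 := H.h3.cs
  have cv1 := H.h1.cm
  have cv2 := H.h2.cm
  have cv3 := H.h3.cm
  have cp1 := H.h1.cb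
  have cp2 := H.h2.cb
  have cp3 := H.h3.cb
  have cy := Ay.1
  have cq := Aq.1
  have cq' : c q' = true := by rw [hq'.2, cq]
  have nba := H.av.n3.nb
  have nb1 := H.h1.n3.nb
  have nb2 := H.h2.n3.nb
  have nb3 := H.h3.n3.nb
  have nbv := S1.n3.nb
  have s12 : s1 ≠ s2 := H.av.n3.xy
  have s13 : s1 ≠ s3 := H.av.n3.xz
  have s23 : s2 ≠ s3 := H.av.n3.yz
  have hyq : y ≠ q := S1.n3.yz
  have hya : y ≠ a := F.ea
  have hqa : q ≠ a := F.fa
  have hq'a : q' ≠ a := by
    rintro rfl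
    exact nomate ma q hq'.symm
  have hq'y : q' ≠ y := by
    rintro rfl
    exact nomate Ay.2 q hq'.symm
  have hq'p : q' ≠ p2 := by
    rintro rfl
    exact nomate Ap.2 q hq'.symm
  have hqp : q ≠ p2 := by
    rintro rfl
    exact nomate Ap.2 q' hq'
  have hp1a : p1 ≠ a := H.h1.n3.yz.symm
  have hp2a : p2 ≠ a := H.h2.n3.yz.symm
  have hp3a : p3 ≠ a := H.h3.n3.yz.symm
  have mX : ∀ x, x ∈ ({s2, a, v1} : Finset V) ↔ x = s2 ∨ x = a ∨ x = v1 := by
    intro x
    simp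
  have nX : ∀ x, x ≠ s2 → x ≠ a → x ≠ v1 → x ∉ ({s2, a, v1} : Finset V) := by
    intro x h1 h2 h3 h
    rcases (mX x).1 h with h | h | h
    · exact h1 h
    · exact h2 h
    · exact h3 h
  have is2 : s2 ∈ ({s2, a, v1} : Finset V) := by simp
  have ia : a ∈ ({s2, a, v1} : Finset V) := by simp
  have iv1 : v1 ∈ ({s2, a, v1} : Finset V) := by simp
  have os1 := nX s1 s12 (ne_col cs1 ca) r1.ne
  have os3 := nX s3 s23.symm (ne_col cs3 ca) F.v1s3.symm
  have ov2 := nX v2 r2.ne.symm (ne_col cv2 ca) F.v12.symm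
  have ov3 := nX v3 F.v3s2 (ne_col cv3 ca) F.v13.symm
  have op1 := nX p1 (ne_col cs2 cp1).symm hp1a (ne_col cv1 cp1).symm
  have op2 := nX p2 (ne_col cs2 cp2).symm hp2a (ne_col cv1 cp2).symm
  have op3 := nX p3 (ne_col cs2 cp3).symm hp3a (ne_col cv1 cp3).symm
  have oy := nX y (ne_col cs2 cy).symm hya (ne_col cv1 cy).symm
  have oq := nX q (ne_col cs2 cq).symm hqa (ne_col cv1 cq).symm
  have oq' := nX q' (ne_col cs2 cq').symm hq'a (ne_col cv1 cq').symm
  have fs2 : flp c {s2, a, v1} s2 = true := by rw [flp_in is2, cs2]; rfl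
  have fa : flp c {s2, a, v1} a = false := by rw [flp_in ia, ca]; rfl
  have fv1 : flp c {s2, a, v1} v1 = true := by rw [flp_in iv1, cv1]; rfl
  have fs1 : flp c {s2, a, v1} s1 = false := by rw [flp_not os1, cs1]
  have fs3 : flp c {s2, a, v1} s3 = false := by rw [flp_not os3, cs3]
  have fv2 : flp c {s2, a, v1} v2 = false := by rw [flp_not ov2, cv2]
  have fv3 : flp c {s2, a, v1} v3 = false := by rw [flp_not ov3, cv3]
  have fp1 : flp c {s2, a, v1} p1 = true := by rw [flp_not op1, cp1]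
  have fp2 : flp c {s2, a, v1} p2 = true := by rw [flp_not op2, cp2]
  have fp3 : flp c {s2, a, v1} p3 = true := by rw [flp_not op3, cp3]
  have fy : flp c {s2, a, v1} y = true := by rw [flp_not oy, cy]
  have fq : flp c {s2, a, v1} q = true := by rw [flp_not oq, cq]
  have Rs2 : ∀ x, Rm G (flp c {s2, a, v1}) s2 x ↔ x = p2 := by
    intro x
    rw [rm3 nb2, fs2, fv2, fa, fp2]
    simp
  have Ra : ∀ x, Rm G (flp c {s2, a, v1}) a x ↔ x = s1 ∨ x = s3 := by
    intro x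
    rw [rm3 nba, fs1, fs2, fs3, fa]
    simp
  have Rv1 : ∀ x, Rm G (flp c {s2, a, v1}) v1 x ↔ x = y ∨ x = q := by
    intro x
    rw [rm3 nbv, fs1, fy, fq, fv1]
    simp
  have Rs1 : ∀ x, Rm G (flp c {s2, a, v1}) s1 x ↔ x = a := by
    intro x
    rw [rm3 nb1, fs1, fv1, fa, fp1]
    simp
  have Rs3 : ∀ x, Rm G (flp c {s2, a, v1}) s3 x ↔ x = a ∨ x = v3 := by
    intro x
    rw [rm3 nb3, fs3, fv3, fa, fp3]
    simp
    tauto
  have Rv3 : ∀ x, Rm G (flp c {s2, a, v1}) v3 x ↔ x = s3 := by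
    intro x
    rw [rm_out ov3, mX]
    constructor
    · rintro (⟨h1, h2⟩ | ⟨h1 | h1 | h1, h2, h3⟩)
      · exact rm_uniq (hm v3) h2 r3.symm
      · rw [h1, cs2, cv3] at h3
        exact absurd rfl h3
      · rw [h1] at h2
        exact absurd h2 (F.na v3 (Or.inr (Or.inr rfl)))
      · rw [h1, cv1, cv3] at h3
        exact absurd rfl h3
    · rintro rfl
      exact Or.inl ⟨fun h => os3 ((mX x).2 h), r3.symm⟩
  have Rp2 : ∀ x, Rm G (flp c {s2, a, v1}) p2 x → x = s2 := by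
    intro x
    rw [rm0 Ap.2 op2, mX]
    rintro ⟨h1 | h1 | h1, h2, h3⟩
    · exact h1
    · rw [h1, ca, cp2] at h3
      exact absurd rfl h3
    · rw [h1] at h2
      rcases (nbv p2).1 h2.symm with h | h | h
      · exact absurd h.symm (ne_col cs1 cp2)
      · exact absurd h hpy
      · exact absurd h hqp.symm
  have Ry : ∀ x, Rm G (flp c {s2, a, v1}) y x ↔ x = v1 := by
    intro x
    rw [rm0 Ay.2 oy, mX]
    constructor
    · rintro ⟨h1 | h1 | h1, h2, h3⟩
      · rw [h1] at h2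
        rcases (nb2 y).1 h2.symm with h | h | h
        · exact absurd h.symm (ne_col cv2 cy)
        · exact absurd h hya
        · exact absurd h hpy.symm
      · rw [h1, ca, cy] at h3
        exact absurd rfl h3
      · exact h1
    · rintro rfl
      exact ⟨Or.inr (Or.inr rfl), ((nbv y).2 (Or.inr (Or.inl rfl))).symm,
          by rw [cv1, cy]; decide⟩
  have Rq : ∀ x, Rm G (flp c {s2, a, v1}) q x ↔ x = v1 ∨ x = q' := by
    intro x
    rw [rm_out oq, mX]
    constructor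
    · rintro (⟨h1, h2⟩ | ⟨h1 | h1 | h1, h2, h3⟩)
      · exact Or.inr (rm_uniq (hm q) h2 hq')
      · rw [h1] at h2
        rcases (nb2 q).1 h2.symm with h | h | h
        · exact absurd h.symm (ne_col cv2 cq)
        · exact absurd h hqa
        · exact absurd h hqp
      · rw [h1, ca, cq] at h3
        exact absurd rfl h3
      · exact Or.inl h1
    · rintro (rfl | rfl)
      · exact Or.inr ⟨Or.inr (Or.inr rfl), ((nbv q).2 (Or.inr (Or.inr rfl))).symm,
          by rw [cv1, cq]; decide⟩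
      · exact Or.inl ⟨fun h => oq' ((mX x).2 h), hq'⟩
  have Rq' : ∀ x, Rm G (flp c {s2, a, v1}) q' x ↔ x = q := by
    intro x
    rw [rm_out oq', mX]
    constructor
    · rintro (⟨h1, h2⟩ | ⟨h1 | h1 | h1, h2, h3⟩)
      · exact rm_uniq (hm q') h2 hq'.symm
      · rw [h1] at h2
        rcases (nb2 q').1 h2.symm with h | h | h
        · exact absurd h.symm (ne_col cv2 cq')
        · exact absurd h hq'a
        · exact absurd h hq'p
      · rw [h1, ca, cq'] at h3
        exact absurd rfl h3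
      · rw [h1] at h2
        rcases (nbv q').1 h2.symm with h | h | h
        · exact absurd h.symm (ne_col cs1 cq')
        · exact absurd h hq'y
        · exact absurd h.symm hq'.ne
    · rintro rfl
      exact Or.inl ⟨fun h => oq ((mX x).2 h), hq'.symm⟩
  have as1 : G.Adj s1 a := ((nba s1).2 (Or.inl rfl)).symm
  have as3 : G.Adj s3 a := ((nba s3).2 (Or.inr (Or.inr rfl))).symm
  have aq : G.Adj q v1 := ((nbv q).2 (Or.inr (Or.inr rfl))).symm
  refine ⟨ter G c {s2, a, v1}, Blk.of2 (f := ![y, v1, q, q']) (g := ![s1, a, s3, v3]) (H := pth 4)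
    cn_ter ?_ (comp4 hyq (ne_col cv1 cq') fy Ry Rv1 Rq Rq')
    (comp4 s13 (ne_col cv3 ca).symm fs1 Rs1 Ra Rs3 Rv3) ?_ ?_ ?_⟩
  · unfold dd
    rw [Finset.sum_insert (by simp [ne_col cs2 ca, F.v1s2.symm]),
      Finset.sum_pair (ne_col cv1 ca).symm, cs2, ca, cv1]
    norm_num
  · intro i
    fin_cases i
    · exact cn_ter (mem_cn.2 (Or.inr ⟨v1, iv1, ((nbv y).2 (Or.inr (Or.inl rfl))).symm⟩))
    · exact cn_ter (mem_cn.2 (Or.inl iv1))
    · exact cn_ter (mem_cn.2 (Or.inr ⟨v1, iv1, aq⟩))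
    · exact ter_mate (mem_cn.2 (Or.inr ⟨v1, iv1, aq⟩)) hq'
  · intro i
    fin_cases i
    · exact cn_ter (mem_cn.2 (Or.inr ⟨a, ia, as1⟩))
    · exact cn_ter (mem_cn.2 (Or.inl ia))
    · exact cn_ter (mem_cn.2 (Or.inr ⟨a, ia, as3⟩))
    · exact ter_mate (mem_cn.2 (Or.inr ⟨a, ia, as3⟩)) r3
  · intro x h1 h2
    have hy : x ≠ y := h1 0
    have hv1 : x ≠ v1 := h1 1
    have hq : x ≠ q := h1 2
    have hs1 : x ≠ s1 := h2 0
    have ha : x ≠ a := h2 1
    have hs3 : x ≠ s3 := h2 2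
    by_cases hs2 : x = s2
    · rw [hs2]
      exact mu_le_one fun y' h => (Rs2 y').1 h
    · by_cases hp2 : x = p2
      · rw [hp2]
        exact mu_le_one fun y' h => Rp2 y' h
      · refine mu_old hm (nX x hs2 ha hv1) ?_
        intro w hw hz' hc
        rcases (mX w).1 hw with h | h | h
        · rw [h] at hz' hc
          rcases (nb2 x).1 hz'.symm with h | h | h
          · rw [h, cs2, cv2] at hc
            exact hc rfl
          · exact ha h
          · exact hp2 h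
        · rw [h] at hz'
          rcases (nba x).1 hz'.symm with h | h | h
          · exact hs1 h
          · exact hs2 h
          · exact hs3 h
        · rw [h] at hz'
          rcases (nbv x).1 hz'.symm with h | h | h
          · exact hs1 h
          · exact hy h
          · exact hq h

end Pool.Agent.Helper78.MC
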